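import Pool.Agent.helper15.DH.Spec
import Pool.Agent.helper71.ED.C2

/-!
# Project dh, module DTS: the local averages of the partial sums.
-/

set_option autoImplicit false

open Complex MeasureTheory

namespace Pool.Agent.DH

open Pool.Agent.helper84.DM Pool.Agent.helper78.ED

theorem DTS_cont (K : ℕ) : Continuous (DK K) := by
  unfold DK
  refine Continuous.norm (continuous_finsetSum _ fun n hn => ?_)
  have hn1 : 1 ≤ n := (Finset.mem_Icc.1 hn).1
  have hn0 : (n : ℂ) ≠ 0 := by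
    have : n ≠ 0 := by omega
    exact_mod_cast this
  refine Continuous.const_cpow ?_ (Or.inl hn0)
  fun_prop

theorem DTS_bdd (K : ℕ) (u : ℝ) : DK K u ≤ K := by
  unfold DK
  refine (norm_sum_le _ _).trans ?_
  have h : ∀ n ∈ Finset.Icc 1 K, ‖(n : ℂ) ^ (-((1 / 2 : ℂ) + u * I))‖ ≤ 1 := by
    intro n hn
    have hn1 : 1 ≤ n := (Finset.mem_Icc.1 hn).1
    rw [Complex.norm_natCast_cpow_of_pos (by omega)]
    refine Real.rpow_le_one_of_one_le_of_nonpos (by exact_mod_cast hn1) ?_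
    simp
  refine (Finset.sum_le_sum h).trans ?_
  simp

theorem DTS_neg (K : ℕ) (u : ℝ) : DK K (-u) = DK K u := by
  unfold DK
  rw [← Complex.norm_conj, map_sum]
  congr 1
  refine Finset.sum_congr rfl fun n hn => ?_
  have ha : (n : ℂ).arg ≠ Real.pi := by
    rw [Complex.natCast_arg]
    exact Real.pi_pos.ne
  have h2 := Complex.cpow_conj (n : ℂ) (-((1 / 2 : ℂ) + (-u : ℝ) * I)) ha
  rw [Complex.conj_natCast] at h2
  rw [← h2]
  congr 1
  have h3 : (starRingEnd ℂ) (1 / 2 : ℂ) = 1 / 2 := by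
    rw [map_div₀, map_one, Complex.conj_ofNat]
  rw [map_neg, map_add, map_mul, Complex.conj_ofReal, Complex.conj_I, h3]
  push_cast
  ring

theorem DTS : DTS_stmt := by
  intro Z K B hB
  have hint : Integrable (fun v : ℝ => Real.exp (-v ^ 2)) := by
    have := integrable_exp_neg_mul_sq (b := 1) one_pos
    simpa using this
  have hsum : ∫ v : ℝ, Real.exp (-v ^ 2) ≤ 2 := by
    have h2 : ∫ v : ℝ, Real.exp (-v ^ 2) = Real.sqrt Real.pi := by
      have := integral_gaussian 1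
      simpa using this
    rw [h2, Real.sqrt_le_left (by norm_num)]
    linarith [Real.pi_lt_d2]
  have hB0 : 0 ≤ B := le_trans (Finset.sum_nonneg fun ρ _ => Finset.sum_nonneg fun ρ' _ =>
    sq_nonneg _) (hB 0)
  have hsq : ∀ u : ℝ, DK K u ^ 2 ≤ (K : ℝ) ^ 2 := fun u =>
    pow_le_pow_left₀ (norm_nonneg _) (DTS_bdd K u) 2
  have hI : ∀ g : ℝ → ℝ, Continuous g →
      Integrable (fun v : ℝ => DK K (g v) ^ 2 * Real.exp (-v ^ 2)) := by
    intro g hg
    refine hint.bdd_mul (c := (K : ℝ) ^ 2) ?_ ?_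
    · exact (((DTS_cont K).comp hg).pow 2).aestronglyMeasurable
    · refine Filter.Eventually.of_forall fun v => ?_
      rw [Real.norm_of_nonneg (sq_nonneg _)]
      exact hsq _
  have h1 : ∀ τ : ℝ, Dt K (|τ| / 2) |τ| ^ 2
      ≤ 2 * ∫ v : ℝ, (DK K (τ + v) ^ 2 * Real.exp (-v ^ 2) +
        DK K (τ + -v) ^ 2 * Real.exp (-v ^ 2)) := by
    intro τ
    have hV : 0 ≤ |τ| / 2 := by positivity
    have hle : -(|τ| / 2) ≤ |τ| / 2 := by linarith
    have hc := C2_cs (g := fun v => DK K (|τ| + v)) hV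
      ((DTS_cont K).comp (continuous_const.add continuous_id)).continuousOn
    have hg := C2_gauss hV
    have h2 : ∫ v in (-(|τ| / 2))..(|τ| / 2), DK K (|τ| + v) ^ 2 * Real.exp (-v ^ 2)
        ≤ ∫ v : ℝ, DK K (|τ| + v) ^ 2 * Real.exp (-v ^ 2) := by
      rw [intervalIntegral.integral_of_le hle]
      exact setIntegral_le_integral (hI _ (by fun_prop))
        (Filter.Eventually.of_forall fun v => by positivity)
    have h3 : ∫ v : ℝ, DK K (|τ| + v) ^ 2 * Real.exp (-v ^ 2)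
        ≤ ∫ v : ℝ, (DK K (τ + v) ^ 2 * Real.exp (-v ^ 2) +
        DK K (τ + -v) ^ 2 * Real.exp (-v ^ 2)) := by
      refine integral_mono (hI _ (by fun_prop))
        ((hI _ (by fun_prop)).add (hI _ (by fun_prop))) fun v => ?_
      have he := Real.exp_pos (-v ^ 2)
      rcases le_total 0 τ with h | h
      · rw [abs_of_nonneg h]
        have : 0 ≤ DK K (τ + -v) ^ 2 * Real.exp (-v ^ 2) := by positivity
        simpa using this
      · rw [abs_of_nonpos h]
        have e : -τ + v = -(τ + -v) := by ring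
        rw [e, DTS_neg]
        have : 0 ≤ DK K (τ + v) ^ 2 * Real.exp (-v ^ 2) := by positivity
        simpa using this
    have hnn : 0 ≤ ∫ v in (-(|τ| / 2))..(|τ| / 2), DK K (|τ| + v) ^ 2 * Real.exp (-v ^ 2) :=
      intervalIntegral.integral_nonneg hle fun v _ => by positivity
    unfold Dt
    refine hc.trans ?_
    refine (mul_le_mul_of_nonneg_right hg hnn).trans ?_
    exact mul_le_mul_of_nonneg_left (h2.trans h3) (by norm_num)
  have hJ : ∀ τ : ℝ, Integrable (fun v : ℝ => DK K (τ + v) ^ 2 * Real.exp (-v ^ 2) +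
      DK K (τ + -v) ^ 2 * Real.exp (-v ^ 2)) := fun τ =>
    (hI (fun v => τ + v) (by fun_prop)).add (hI (fun v => τ + -v) (by fun_prop))
  have h4 : ∑ ρ ∈ Z, ∑ ρ' ∈ Z, Dt K (|ρ.im - ρ'.im| / 2) |ρ.im - ρ'.im| ^ 2
      ≤ 2 * ∫ v : ℝ, ∑ ρ ∈ Z, ∑ ρ' ∈ Z, (DK K (ρ.im - ρ'.im + v) ^ 2 * Real.exp (-v ^ 2) +
        DK K (ρ.im - ρ'.im + -v) ^ 2 * Real.exp (-v ^ 2)) := by
    rw [integral_finsetSum _ (fun ρ _ => integrable_finsetSum _ fun ρ' _ => hJ _),
      Finset.mul_sum]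
    refine Finset.sum_le_sum fun ρ _ => ?_
    rw [integral_finsetSum _ (fun ρ' _ => hJ _), Finset.mul_sum]
    exact Finset.sum_le_sum fun ρ' _ => h1 _
  have h5 : ∫ v : ℝ, ∑ ρ ∈ Z, ∑ ρ' ∈ Z, (DK K (ρ.im - ρ'.im + v) ^ 2 * Real.exp (-v ^ 2) +
        DK K (ρ.im - ρ'.im + -v) ^ 2 * Real.exp (-v ^ 2)) ≤ ∫ v : ℝ, 2 * B * Real.exp (-v ^ 2) := by
    refine integral_mono ?_ (hint.const_mul _) fun v => ?_
    · exact integrable_finsetSum _ (fun ρ _ => integrable_finsetSum _ fun ρ' _ => hJ _)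
    · have he := (Real.exp_pos (-v ^ 2)).le
      have e : ∑ ρ ∈ Z, ∑ ρ' ∈ Z, (DK K (ρ.im - ρ'.im + v) ^ 2 * Real.exp (-v ^ 2) +
          DK K (ρ.im - ρ'.im + -v) ^ 2 * Real.exp (-v ^ 2))
          = (∑ ρ ∈ Z, ∑ ρ' ∈ Z, DK K (ρ.im - ρ'.im + v) ^ 2 +
            ∑ ρ ∈ Z, ∑ ρ' ∈ Z, DK K (ρ.im - ρ'.im + -v) ^ 2) * Real.exp (-v ^ 2) := by
        simp only [Finset.sum_add_distrib, add_mul, Finset.sum_mul]
      beta_reduce
      rw [e]
      exact mul_le_mul_of_nonneg_right (by linarith [hB v, hB (-v)]) he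
  rw [integral_const_mul] at h5
  nlinarith

end Pool.Agent.DH
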