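import Pool.Agent.helper57.DH.SpecL

/-!
# Project d2: (MP_5823cb_al), module LCE: sums over cells
-/

set_option autoImplicit false

open Filter Topology MeasureTheory
open scoped commutatorElement

namespace Pool.Agent.helper90.DH

open Pool.Agent.helper64.D2

theorem LCE_int (f : ℝ → ℝ) (hf : BM f) : Integrable f := by
  obtain ⟨h1, ⟨B, hB⟩, h3⟩ := hf
  have h2 : IntegrableOn f (Set.Icc (0 : ℝ) 1) := by
    refine Measure.integrableOn_of_bounded (M := B) (by simp) h1.aestronglyMeasurable ?_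
    exact Filter.Eventually.of_forall fun x => by
      rw [Real.norm_eq_abs]
      exact hB x
  exact (integrableOn_iff_integrable_of_support_subset (fun x hx => by
    by_contra h
    exact hx (h3 x h))).1 h2

theorem LCE_sum (s : ℕ) (f : ℝ → ℝ) (hf : Integrable f) (a b : ℤ) (hab : a ≤ b) :
    ∫ t in Set.Ico ((a : ℝ) / 2 ^ s) ((b : ℝ) / 2 ^ s), f t = ∑ l ∈ Finset.Ico a b, ∫ t in cell s l, f t := by
  have h2 : (0 : ℝ) < 2 ^ s := by positivity
  induction b, hab using Int.leInduction with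
  | base => simp
  | succ b hb ih =>
    have h3 : Finset.Ico a (b + 1) = insert b (Finset.Ico a b) := by
      ext x
      simp only [Finset.mem_Ico, Finset.mem_insert]
      omega
    rw [h3, Finset.sum_insert (by simp), ← ih]
    have e1 : (a : ℝ) / 2 ^ s ≤ (b : ℝ) / 2 ^ s := by
      apply div_le_div_of_nonneg_right _ h2.le
      exact_mod_cast hb
    have e2 : (b : ℝ) / 2 ^ s ≤ (((b + 1 : ℤ) : ℝ)) / 2 ^ s := by
      apply div_le_div_of_nonneg_right _ h2.le
      push_cast
      linarith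
    have e3 : cell s b = Set.Ico ((b : ℝ) / 2 ^ s) (((b + 1 : ℤ) : ℝ) / 2 ^ s) := by
      unfold cell
      push_cast
      rfl
    rw [← Set.Ico_union_Ico_eq_Ico e1 e2, e3, setIntegral_union _ measurableSet_Ico hf.integrableOn hf.integrableOn, add_comm]
    rw [Set.disjoint_left]
    intro x hx hx'
    exact absurd hx.2 (not_lt.2 hx'.1)

/-- LCE: sums over cells. -/
theorem LCE : LCE_stmt := by
  refine ⟨fun s f g hf hg h => ?_, fun s r k f hf hsr => ?_⟩
  · have h2 : (0 : ℝ) < 2 ^ s := by positivity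
    have key : ∀ u : ℝ → ℝ, BM u → ∫ t, u t = ∑ l ∈ Finset.Ico (0 : ℤ) (2 ^ s + 1), ∫ t in cell s l, u t := by
      intro u hu
      rw [← LCE_sum s u (LCE_int u hu) 0 (2 ^ s + 1) (by positivity), setIntegral_eq_integral_of_forall_compl_eq_zero]
      intro x hx
      apply hu.2.2
      intro hx2
      apply hx
      push_cast
      refine ⟨by simpa using hx2.1, ?_⟩
      rw [lt_div_iff₀ h2]
      nlinarith [hx2.2]
    rw [key f hf, key g hg]
    exact Finset.sum_le_sum fun l _ => h l
  · have h2 : (0 : ℝ) < 2 ^ s := by positivity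
    have h3 : (0 : ℤ) < 2 ^ (r - s) := by positivity
    rw [← LCE_sum r f (LCE_int f hf) _ _ (by nlinarith)]
    have h4 : (2 : ℝ) ^ r = 2 ^ (r - s) * 2 ^ s := by
      rw [← pow_add, Nat.sub_add_cancel hsr]
    have h5 : (2 : ℝ) ^ (r - s) ≠ 0 := by positivity
    have e1 : (((k * 2 ^ (r - s) : ℤ) : ℝ)) / 2 ^ r = (k : ℝ) / 2 ^ s := by
      push_cast
      rw [h4]
      field_simp
    have e2 : ((((k + 1) * 2 ^ (r - s) : ℤ) : ℝ)) / 2 ^ r = ((k : ℝ) + 1) / 2 ^ s := by
      push_cast
      rw [h4]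
      field_simp
    rw [e1, e2]
    rfl

end Pool.Agent.helper90.DH
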