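import Pool.Agent.helper18.DH.SpecM
import Pool.Agent.helper13.D2.SZC

/-!
# Project dh: (MP_5823cb_al), part M, module TBA: the step map `E⁻¹ F E`
-/

set_option autoImplicit false

open Filter Topology MeasureTheory
open scoped commutatorElement

namespace Pool.Agent.helper90.DH

open Pool.Agent.helper64.D2

theorem TBA_lip (E : DD) (a : ℝ) (hE : Sz E a) (x y : ℝ) :
    |deriv (ev E) x - deriv (ev E) y| ≤ a * |x - y| := by
  have h := Convex.norm_image_sub_le_of_norm_deriv_le (𝕜 := ℝ) (f := deriv (ev E)) (C := a) (s := Set.univ) (x := y) (y := x)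
    (fun z _ => SZC_d2 E z) (fun z _ => by rw [Real.norm_eq_abs]; exact hE z) convex_univ (Set.mem_univ _) (Set.mem_univ _)
  simpa [Real.norm_eq_abs] using h

theorem TBA_exp (E : DD) (a : ℝ) (hE : Sz E a) (x y : ℝ) :
    |x - y| ≤ |ev E x - ev E y| + a * |x - y| := by
  have hd : ∀ z, HasDerivAt (fun z => ev E z - z) (deriv (ev E) z - 1) z := fun z =>
    ((SZC_d1 E z).hasDerivAt).sub (hasDerivAt_id z)
  have h := Convex.norm_image_sub_le_of_norm_deriv_le (𝕜 := ℝ) (f := fun z => ev E z - z) (C := a) (s := Set.univ) (x := y) (y := x)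
    (fun z _ => (hd z).differentiableAt) (fun z _ => by rw [(hd z).deriv, Real.norm_eq_abs]; exact SZC_der E a hE z)
    convex_univ (Set.mem_univ _) (Set.mem_univ _)
  rw [Real.norm_eq_abs, Real.norm_eq_abs] at h
  have h1 : x - y = (ev E x - ev E y) - ((ev E x - x) - (ev E y - y)) := by ring
  calc |x - y| = |(ev E x - ev E y) - ((ev E x - x) - (ev E y - y))| := by rw [← h1]
    _ ≤ |ev E x - ev E y| + |(ev E x - x) - (ev E y - y)| := abs_sub _ _
    _ ≤ |ev E x - ev E y| + a * |x - y| := by linarith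

theorem TBA_mono (g : DD) (a b : ℝ) (h : Sz g a) (hab : a ≤ b) : Sz g b := fun x => (h x).trans hab

theorem TBA_lpm (g : DD) (L L' : ℝ) (h : Lp g L) (hL : L ≤ L') : Lp g L' := fun x y =>
  (h x y).trans (mul_le_mul_of_nonneg_right hL (abs_nonneg _))

theorem TBA (hNCA : NCA_stmt) (hLPC : LPC_stmt) : TBA_stmt := by
  obtain ⟨-, hch, -, hinv, -⟩ := hNCA
  obtain ⟨hL1, hL2⟩ := hLPC
  intro E F a d M ha hd0 hd hM hE hF hFd
  have ha0 : 0 ≤ a := SZC_nonneg E a hE
  have hEi : Sz E⁻¹ (2 * a) := SZC_inv E a hE (by linarith)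
  have hEF : Sz (E⁻¹ * F) (2 * a + a + 4 * (2 * a) * a) := SZC_mul _ _ _ _ hEi hF (by linarith)
  have hT : Sz (E⁻¹ * F * E) ((2 * a + a + 4 * (2 * a) * a) + a + 4 * (2 * a + a + 4 * (2 * a) * a) * a) :=
    SZC_mul _ _ _ _ hEF hE (by linarith)
  have haa : a * a ≤ a * (1 / 1000) := mul_le_mul_of_nonneg_left ha ha0
  have haa0 : 0 ≤ a * a := mul_nonneg ha0 ha0
  have haaa : a * (a * a) ≤ a * (a * (1 / 1000)) := mul_le_mul_of_nonneg_left haa ha0
  refine ⟨?_, TBA_mono _ _ _ hT (by nlinarith), ?_⟩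
  · intro x
    have e1 : ev (E⁻¹ * F * E) x = ev E⁻¹ (ev F (ev E x)) := by
      rw [ev_mul, ev_mul]
    have hTx : |ev (E⁻¹ * F * E) x - x| ≤ 2 * d := by
      have h1 := TBA_exp E a hE (ev E⁻¹ (ev F (ev E x))) x
      rw [ev_inv'] at h1
      have h2 := (hFd (ev E x)).1
      rw [e1]
      set r := |ev E⁻¹ (ev F (ev E x)) - x| with hr
      have hr0 : 0 ≤ r := abs_nonneg _
      have h3 : a * r ≤ 1 / 1000 * r := mul_le_mul_of_nonneg_right ha hr0
      linarith
    refine ⟨hTx, ?_⟩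
    have e2 : deriv (ev (E⁻¹ * F * E)) x =
        1 / deriv (ev E) (ev (E⁻¹ * F * E) x) * deriv (ev F) (ev E x) * deriv (ev E) x := by
      rw [hch, hch, hinv, e1]
    rw [e2]
    set T := ev (E⁻¹ * F * E) x with hTdef
    have p1 := SZC_der E a hE T
    have p2 := SZC_der E a hE x
    have p3 := (hFd (ev E x)).2
    have p4 := TBA_lip E a hE x T
    rw [abs_sub_comm x T] at p4
    have p5 : a * |T - x| ≤ a * (2 * d) := mul_le_mul_of_nonneg_left hTx ha0
    have q1 := abs_le.1 p1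
    have q2 := abs_le.1 p2
    have hpos : 0 < deriv (ev E) T := by linarith [q1.1]
    have e3 : 1 / deriv (ev E) T * deriv (ev F) (ev E x) * deriv (ev E) x - 1 =
        ((deriv (ev F) (ev E x) - 1) * deriv (ev E) x + (deriv (ev E) x - deriv (ev E) T)) / deriv (ev E) T := by
      field_simp
      ring
    rw [e3, abs_div, abs_of_pos hpos, div_le_iff₀ hpos]
    have h6 : |(deriv (ev F) (ev E x) - 1) * deriv (ev E) x| ≤ 2 * d * (1 + a) := by
      rw [abs_mul]
      refine mul_le_mul p3 ?_ (abs_nonneg _) (by linarith)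
      rw [abs_le]
      constructor <;> linarith [q2.1, q2.2]
    have h7 := abs_add_le ((deriv (ev F) (ev E x) - 1) * deriv (ev E) x) (deriv (ev E) x - deriv (ev E) T)
    have h8 : a * d ≤ 1 / 1000 * d := mul_le_mul_of_nonneg_right ha hd0
    have h9 : 4 * d * (1 - a) ≤ 4 * d * deriv (ev E) T := mul_le_mul_of_nonneg_left (by linarith [q1.1]) (by linarith)
    nlinarith
  · intro hEM hFM
    have s1 : Lp E⁻¹ (2 * M + 1) := hL2 E a M (by linarith) hE hEM
    have s2 : Lp (E⁻¹ * F) (2 * (2 * M + 1) + 2 * M + 1) :=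
      hL1 E⁻¹ F (2 * a) _ _ (by linarith) hEi (TBA_mono _ _ _ hF (by linarith)) s1 hFM
    have s3 : Lp (E⁻¹ * F * E) (2 * (2 * (2 * M + 1) + 2 * M + 1) + 2 * M + 1) :=
      hL1 (E⁻¹ * F) E (4 * a) _ _ (by linarith) (TBA_mono _ _ _ hEF (by nlinarith)) (TBA_mono _ _ _ hE (by linarith)) s2 hEM
    exact TBA_lpm _ _ _ s3 (by linarith)

end Pool.Agent.helper90.DH
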