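import Pool.Agent.helper15.DH.Spec

/-!
# Project dh, module ABS: the absorption, an upper bound for `QQ`.
-/

set_option autoImplicit false

open Complex MeasureTheory

namespace Pool.Agent.DH

open Pool.Agent.helper84.DM Pool.Agent.helper78.ED

theorem ABS_log {e T : ℝ} (he : 0 < e) (hT : 1 ≤ T) :
    Real.log T ^ 2 ≤ (1 / e) ^ 2 * T ^ (2 * e) := by
  have h1 := Real.log_le_rpow_div (show (0 : ℝ) ≤ T by linarith) he
  have h0 := Real.log_nonneg hT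
  have h2 : T ^ (2 * e) = (T ^ e) ^ 2 := by
    rw [← Real.rpow_natCast, ← Real.rpow_mul (by linarith)]
    congr 1
    push_cast
    ring
  calc Real.log T ^ 2 ≤ (T ^ e / e) ^ 2 := pow_le_pow_left₀ h0 h1 2
    _ = _ := by rw [h2]; field_simp

/-- The choice of the length `L`. -/
theorem ABS_len {T N X : ℝ} (hT : 2 ≤ T) (hN : 1 ≤ N) (hNX : N ≤ X) (hX : X ≤ T ^ (2 : ℕ)) :
    ∃ L : ℕ, 1 ≤ L ∧ (X / N) ^ (1 / 2 : ℝ) ≤ (L : ℝ) ∧ (L : ℝ) ≤ 2 * (X / N) ^ (1 / 2 : ℝ) ∧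
      N * L ≤ T ^ (5 : ℕ) ∧ X ≤ N * L * L := by
  have hN0 : 0 < N := by linarith
  have hX1 : 1 ≤ X / N := by rwa [le_div_iff₀ hN0, one_mul]
  set y : ℝ := (X / N) ^ (1 / 2 : ℝ) with hy
  have hy1 : 1 ≤ y := Real.one_le_rpow hX1 (by norm_num)
  have hyy : y * y = X / N := by
    rw [hy, ← Real.rpow_add (by linarith)]
    norm_num
  have hc1 := Nat.le_ceil y
  have hc2 := Nat.ceil_lt_add_one (show 0 ≤ y by linarith)
  refine ⟨⌈y⌉₊, Nat.one_le_ceil_iff.2 (by linarith), hc1, by linarith, ?_, ?_⟩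
  · have hyX : y ≤ X / N := by nlinarith
    have h1 : N * (X / N) = X := by field_simp
    have h2 : N * (⌈y⌉₊ : ℝ) ≤ 2 * X := by
      calc N * (⌈y⌉₊ : ℝ) ≤ N * (2 * (X / N)) := by
            apply mul_le_mul_of_nonneg_left _ hN0.le
            linarith
        _ = 2 * X := by linarith
    calc N * (⌈y⌉₊ : ℝ) ≤ 2 * X := h2
      _ ≤ T * T ^ 2 := by
          have : 0 ≤ T ^ 2 := by positivity
          nlinarith
      _ ≤ T ^ 5 := by
          have h3 : 1 ≤ T ^ 2 := by nlinarith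
          have h4 : T ^ 5 = T * T ^ 2 * T ^ 2 := by ring
          rw [h4]
          exact le_mul_of_one_le_right (by positivity) h3
  · have h1 : N * (X / N) = X := by field_simp
    have h2 : y * y ≤ (⌈y⌉₊ : ℝ) * ⌈y⌉₊ := mul_self_le_mul_self (by linarith) hc1
    calc X = N * (y * y) := by rw [hyy, h1]
      _ ≤ N * ((⌈y⌉₊ : ℝ) * ⌈y⌉₊) := mul_le_mul_of_nonneg_left h2 hN0.le
      _ = _ := by ring

theorem ABS (h : LVA_stmt) : ABS_stmt := by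
  intro s₀ ε δ hs hε hδ hδ1
  set m : ℝ := s₀ - 3 / 4 with hm
  have hm0 : 0 < m := by linarith
  have hdm : 0 < δ * m := mul_pos hδ hm0
  refine ⟨min (min (ε / 8) (δ * m / 8)) 1, by positivity, min_le_right _ _, ?_⟩
  intro κ' hκ0 hκ C₁ hC₁
  have hκ1 : κ' ≤ ε / 8 := hκ.trans ((min_le_left _ _).trans (min_le_left _ _))
  have hκ2 : κ' ≤ δ * m / 8 := hκ.trans ((min_le_left _ _).trans (min_le_right _ _))
  set e1 : ℝ := min (min (ε / 4) (δ / 2)) (δ * m / 8) with he1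
  have he0 : 0 < e1 := by positivity
  have he2 : e1 ≤ ε / 4 := (min_le_left _ _).trans (min_le_left _ _)
  have he3 : e1 ≤ δ / 2 := (min_le_left _ _).trans (min_le_right _ _)
  have he4 : e1 ≤ δ * m / 8 := min_le_right _ _
  obtain ⟨C, T₁, hC, hL⟩ := h e1 he0
  -- the constant for the absorption
  set W : ℝ := 2 ^ (2 * m) * (32 * C * C₁ ^ 4 * (1 / (δ * m / 4)) ^ 2) with hW
  have hW0 : 0 < W := by positivity
  refine ⟨32 * C * C₁ ^ 4 * (1 / (ε / 4)) ^ 2, max (max T₁ 3) (W ^ (1 / (δ * m))),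
    by positivity, ?_⟩
  intro T hT σ hσ hσ1 Z hZ N hN1 hN2 a ha hV
  have hTa : T₁ ≤ T := (le_max_left _ _).trans ((le_max_left _ _).trans hT)
  have hTb : 3 ≤ T := (le_max_right _ _).trans ((le_max_left _ _).trans hT)
  have hTc : W ^ (1 / (δ * m)) ≤ T := (le_max_right _ _).trans hT
  have hT0 : 0 < T := by linarith
  have hT1 : 1 ≤ T := by linarith
  have hWT : W ≤ T ^ (δ * m) := by
    have h1 := Real.rpow_le_rpow (by positivity) hTc hdm.le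
    rwa [← Real.rpow_mul hW0.le, one_div, inv_mul_cancel₀ hdm.ne', Real.rpow_one] at h1
  have hNpos : (0 : ℝ) < N := lt_of_lt_of_le (by positivity) hN1
  have hNn : 1 ≤ N := by
    have : 0 < N := by exact_mod_cast hNpos
    omega
  have hNr : (1 : ℝ) ≤ N := by exact_mod_cast hNn
  have hNX : (N : ℝ) ≤ T ^ (1 + 2 * δ) :=
    hN2.trans (Real.rpow_le_rpow_of_exponent_le hT1 (by linarith))
  have hX2 : T ^ (1 + 2 * δ) ≤ T ^ (2 : ℕ) := by
    rw [← Real.rpow_natCast]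
    exact Real.rpow_le_rpow_of_exponent_le hT1 (by push_cast; linarith)
  obtain ⟨L, hL1, hL2, hL3, hL4, hL5⟩ := ABS_len (show (2 : ℝ) ≤ T by linarith) hNr hNX hX2
  refine ⟨L, hL1, hL2, hL3, ?_⟩
  have hlog : 0 < Real.log T := Real.log_pos (by linarith)
  have hXe : T ^ (1 + e1) ≤ (N : ℝ) * L * L :=
    (Real.rpow_le_rpow_of_exponent_le hT1 (by linarith)).trans hL5
  set V : ℝ := (N : ℝ) ^ σ / (4 * C₁ * Real.log T) with hVd
  have hV0 : 0 < V := by positivity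
  have hmain := hL T hTa σ (by linarith) Z hZ N L hNn hL1 hL4 hXe a (C₁ * T ^ κ') V hV0.le ha hV
  have hQ0 : 0 ≤ QQ Z L := by
    unfold QQ
    positivity
  -- the term with `QQ` is absorbed
  have hN2s : ((N : ℝ) ^ σ) ^ 2 = (N : ℝ) ^ (2 * σ) := by
    rw [← Real.rpow_natCast, ← Real.rpow_mul hNpos.le]
    congr 1
    push_cast
    ring
  have hTk : (T ^ κ') ^ 2 = T ^ (2 * κ') := by
    rw [← Real.rpow_natCast, ← Real.rpow_mul hT0.le]
    congr 1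
    push_cast
    ring
  have hV2 : V ^ 2 = (N : ℝ) ^ (2 * σ) / (16 * C₁ ^ 2 * Real.log T ^ 2) := by
    rw [hVd, div_pow, hN2s]
    congr 1
    ring
  have hkey : 32 * C * C₁ ^ 4 * Real.log T ^ 2 * (T ^ (2 * κ') * T ^ e1)
      ≤ (N : ℝ) ^ (2 * σ - 3 / 2) := by
    have h1 : (T ^ δ / 2) ^ (2 * m) ≤ (N : ℝ) ^ (2 * σ - 3 / 2) := by
      refine (Real.rpow_le_rpow (by positivity) hN1 (by linarith)).trans ?_
      exact Real.rpow_le_rpow_of_exponent_le hNr (by linarith)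
    refine le_trans ?_ h1
    rw [Real.div_rpow (by positivity) (by norm_num), ← Real.rpow_mul hT0.le,
      le_div_iff₀ (by positivity)]
    have h2 := ABS_log (show 0 < δ * m / 4 by positivity) hT1
    have h3 : T ^ (2 * κ') * T ^ e1 * T ^ (2 * (δ * m / 4)) * T ^ (δ * m) ≤ T ^ (δ * (2 * m)) := by
      rw [← Real.rpow_add hT0, ← Real.rpow_add hT0, ← Real.rpow_add hT0]
      exact Real.rpow_le_rpow_of_exponent_le hT1 (by linarith)
    calc 32 * C * C₁ ^ 4 * Real.log T ^ 2 * (T ^ (2 * κ') * T ^ e1) * 2 ^ (2 * m)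
        ≤ 32 * C * C₁ ^ 4 * ((1 / (δ * m / 4)) ^ 2 * T ^ (2 * (δ * m / 4))) *
            (T ^ (2 * κ') * T ^ e1) * 2 ^ (2 * m) := by gcongr
      _ = T ^ (2 * κ') * T ^ e1 * T ^ (2 * (δ * m / 4)) * W := by rw [hW]; ring
      _ ≤ T ^ (2 * κ') * T ^ e1 * T ^ (2 * (δ * m / 4)) * T ^ (δ * m) := by gcongr
      _ ≤ _ := h3
  have habs : C * (C₁ * T ^ κ') ^ 2 * T ^ e1 * ((N : ℝ) ^ (3 / 2 : ℝ)) ≤ V ^ 2 / 2 := by
    rw [hV2, mul_pow, hTk, div_div, le_div_iff₀ (by positivity)]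
    have h1 : (N : ℝ) ^ (2 * σ) = (N : ℝ) ^ (2 * σ - 3 / 2) * (N : ℝ) ^ (3 / 2 : ℝ) := by
      rw [← Real.rpow_add hNpos]
      congr 1
      ring
    rw [h1]
    calc C * (C₁ ^ 2 * T ^ (2 * κ')) * T ^ e1 * (N : ℝ) ^ (3 / 2 : ℝ) *
          (16 * C₁ ^ 2 * Real.log T ^ 2 * 2)
        = 32 * C * C₁ ^ 4 * Real.log T ^ 2 * (T ^ (2 * κ') * T ^ e1) * (N : ℝ) ^ (3 / 2 : ℝ) := by
          ring
      _ ≤ _ := mul_le_mul_of_nonneg_right hkey (by positivity)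
  have hred : V ^ 2 * QQ Z L
      ≤ 2 * (C * (C₁ * T ^ κ') ^ 2 * T ^ e1) * ((N : ℝ) ^ 2 * (L : ℝ) ^ 2 * (Z.card : ℝ)) := by
    have h1 := mul_le_mul_of_nonneg_right habs hQ0
    nlinarith
  have hN4 : (N : ℝ) ^ 2 = (N : ℝ) ^ (2 * σ) * (N : ℝ) ^ (2 - 2 * σ) := by
    rw [← Real.rpow_add hNpos, ← Real.rpow_natCast]
    congr 1
    push_cast
    ring
  rw [hV2, div_mul_eq_mul_div, div_le_iff₀ (by positivity), hN4, mul_pow, hTk] at hred
  have hNs : 0 < (N : ℝ) ^ (2 * σ) := by positivity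
  have h5 : QQ Z L ≤ 32 * C * C₁ ^ 4 * Real.log T ^ 2 * (T ^ (2 * κ') * T ^ e1) *
      ((N : ℝ) ^ (2 - 2 * σ) * (L : ℝ) ^ 2 * (Z.card : ℝ)) := by
    refine le_of_mul_le_mul_left ?_ hNs
    refine hred.trans (le_of_eq ?_)
    ring
  refine h5.trans ?_
  have h6 := ABS_log (show 0 < ε / 4 by positivity) hT1
  have h7 : T ^ (2 * (ε / 4)) * (T ^ (2 * κ') * T ^ e1) ≤ T ^ ε := by
    rw [← Real.rpow_add hT0, ← Real.rpow_add hT0]
    exact Real.rpow_le_rpow_of_exponent_le hT1 (by linarith)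
  calc 32 * C * C₁ ^ 4 * Real.log T ^ 2 * (T ^ (2 * κ') * T ^ e1) *
        ((N : ℝ) ^ (2 - 2 * σ) * (L : ℝ) ^ 2 * (Z.card : ℝ))
      ≤ 32 * C * C₁ ^ 4 * ((1 / (ε / 4)) ^ 2 * T ^ (2 * (ε / 4))) * (T ^ (2 * κ') * T ^ e1) *
        ((N : ℝ) ^ (2 - 2 * σ) * (L : ℝ) ^ 2 * (Z.card : ℝ)) := by gcongr
    _ = 32 * C * C₁ ^ 4 * (1 / (ε / 4)) ^ 2 * (T ^ (2 * (ε / 4)) * (T ^ (2 * κ') * T ^ e1)) *
        ((N : ℝ) ^ (2 - 2 * σ) * (L : ℝ) ^ 2 * (Z.card : ℝ)) := by ring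
    _ ≤ _ := by gcongr

end Pool.Agent.DH
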